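import Pool.Agent.Helper57.SL.Stmts
import Pool.Agent.Helper63.SI.LB
import Pool.Agent.Helper3.SI.LOW

/-! Row LOWS of sheet SL: every interval contains a point with the phase `α`. -/

set_option autoImplicit false

namespace Pool.Agent.Helper99.SL

open MeasureTheory Set Filter Topology
open Pool.Agent.Helper57.QZ (Pr)
open Pool.Agent.Helper57.SI (fej Kk zz ww)
open Pool.Agent.Helper57.SL

namespace LOWS99

theorem int_sum (z K : ℕ) (α u H : ℝ) (c : Pr z → ℝ) (hc : ∀ p, 0 ≤ c p) (B : ℝ)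
    (hB : ∀ q : Pr z, (∫ t in u..(u + H), ww z K α t *
      (1 - Real.cos (t * Real.log ((q : ℕ) : ℝ) + α))) ≤ B) :
    (∫ t in u..(u + H), ww z K α t *
      (∑ p : Pr z, c p * (1 - Real.cos (t * Real.log ((p : ℕ) : ℝ) + α)))) ≤
      (∑ p, c p) * B := by
  have e : ∀ t, ww z K α t * (∑ p : Pr z, c p * (1 - Real.cos (t * Real.log ((p : ℕ) : ℝ) + α))) =
      ∑ p : Pr z, c p * (ww z K α t * (1 - Real.cos (t * Real.log ((p : ℕ) : ℝ) + α))) := by
    intro t
    rw [Finset.mul_sum]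
    refine Finset.sum_congr rfl fun p _ => ?_
    ring
  simp only [e]
  rw [intervalIntegral.integral_finset_sum]
  · rw [Finset.sum_mul]
    refine Finset.sum_le_sum fun p _ => ?_
    rw [intervalIntegral.integral_const_mul]
    exact mul_le_mul_of_nonneg_left (hB p) (hc p)
  · intro p _
    apply Continuous.intervalIntegrable
    exact continuous_const.mul ((Pool.Agent.Helper63.SI.ww_cont z K α).mul
      (continuous_const.sub (Real.continuous_cos.comp
        ((continuous_id.mul continuous_const).add continuous_const))))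

theorem cont_sum (z : ℕ) (α : ℝ) (c : Pr z → ℝ) : Continuous (fun t : ℝ =>
    ∑ p : Pr z, c p * (1 - Real.cos (t * Real.log ((p : ℕ) : ℝ) + α))) := by
  refine continuous_finsetSum _ fun p _ => ?_
  exact continuous_const.mul (continuous_const.sub (Real.continuous_cos.comp
    ((continuous_id.mul continuous_const).add continuous_const)))

theorem S1_eq (σ : ℝ) (z : ℕ) : S1 σ z = ∑ p : Pr z, ((p : ℕ) : ℝ) ^ (-σ) := by
  unfold S1
  rw [← Finset.sum_coe_sort]

theorem S2_eq (σ : ℝ) (z : ℕ) :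
    S2 σ z = ∑ p : Pr z, Real.log ((p : ℕ) : ℝ) * ((p : ℕ) : ℝ) ^ (-σ) := by
  unfold S2
  rw [← Finset.sum_coe_sort]

/-- `S1 ≤ M + S2 / log M` -/
theorem S1_le (σ : ℝ) (hσ : 0 ≤ σ) (M z : ℕ) (hM : 2 ≤ M) :
    S1 σ z ≤ M + S2 σ z / Real.log M := by
  have hM' : (2 : ℝ) ≤ M := by exact_mod_cast hM
  have hlM : 0 < Real.log M := Real.log_pos (by linarith)
  unfold S1 S2
  rw [Finset.sum_div]
  have h1 : ∀ p ∈ Nat.primesBelow (z + 1), (p : ℝ) ^ (-σ) ≤
      (if p < M then (1 : ℝ) else 0) + Real.log p * (p : ℝ) ^ (-σ) / Real.log M := by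
    intro p hp
    have hpp : p.Prime := Nat.prime_of_mem_primesBelow hp
    have hp1 : (1 : ℝ) ≤ p := by exact_mod_cast hpp.one_le
    have hp0 : (0 : ℝ) < p := by linarith
    have hlp : 0 ≤ Real.log p := Real.log_nonneg hp1
    have hpp0 : 0 < (p : ℝ) ^ (-σ) := Real.rpow_pos_of_pos hp0 _
    by_cases h : p < M
    · rw [if_pos h]
      have h2 : (p : ℝ) ^ (-σ) ≤ 1 := Real.rpow_le_one_of_one_le_of_nonpos hp1 (by linarith)
      have h3 : 0 ≤ Real.log p * (p : ℝ) ^ (-σ) / Real.log M := by positivity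
      linarith
    · rw [if_neg h, zero_add]
      have h2 : (M : ℝ) ≤ p := by exact_mod_cast not_lt.1 h
      have h3 : Real.log M ≤ Real.log p := Real.log_le_log (by linarith) h2
      rw [le_div_iff₀ hlM, mul_comm]
      exact mul_le_mul_of_nonneg_right h3 hpp0.le
  refine (Finset.sum_le_sum h1).trans ?_
  rw [Finset.sum_add_distrib]
  refine add_le_add ?_ le_rfl
  rw [← Finset.sum_filter, Finset.sum_const, nsmul_eq_mul, mul_one]
  have h2 : ((Nat.primesBelow (z + 1)).filter fun p => p < M) ⊆ Finset.range M := by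
    intro p hp
    exact Finset.mem_range.2 (Finset.mem_filter.1 hp).2
  have h3 := Finset.card_le_card h2
  rw [Finset.card_range] at h3
  exact_mod_cast h3

theorem ev (η : ℝ) : ∀ᶠ H : ℝ in atTop, 0 < H ∧ 3 ≤ Kk H ∧
    (zz H : ℝ) ≤ Real.log H / (8 * Kk H) ∧ 1 ≤ Real.log (Real.log H) ∧
    8 / η ≤ Real.log (Real.log H) ∧ Real.log (Real.log H) ≤ Kk H ∧
    (2 + Real.log (Real.log H) / 2 + 4 / η) * Real.exp (3 * Real.log H / 8) ≤ H / 8 := by
  have t1 : Tendsto Real.log atTop atTop := Real.tendsto_log_atTop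
  have t2 : Tendsto (fun H : ℝ => Real.log (Real.log H)) atTop atTop := t1.comp t1
  have e2 : ∀ᶠ L : ℝ in atTop, L ^ 2 * Real.exp (-(L / 2)) ≤ 1 / 8 := by
    have h := Real.tendsto_pow_mul_exp_neg_atTop_nhds_zero 2
    have h2 : Tendsto (fun L : ℝ => L / 2) atTop atTop :=
      tendsto_id.atTop_div_const (by norm_num)
    have h3 := (h.comp h2).eventually (gt_mem_nhds (show (0 : ℝ) < 1 / 8 / 4 by norm_num))
    filter_upwards [h3] with L hL
    have h4 : (L / 2) ^ 2 * Real.exp (-(L / 2)) < 1 / 8 / 4 := hL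
    nlinarith
  filter_upwards [eventually_gt_atTop (0 : ℝ), t1.eventually e2,
    t1.eventually (eventually_ge_atTop (24 : ℝ)),
    t1.eventually (eventually_ge_atTop (2 + 4 / η)),
    t2.eventually (eventually_ge_atTop (3 : ℝ)), t2.eventually (eventually_ge_atTop (8 / η))]
    with H h0 h2 h3 h3' h4 h5
  set L := Real.log H with hL
  set l := Real.log L with hl
  have hL0 : 0 < L := by linarith
  have hK1 : l ≤ Kk H := Nat.le_ceil _
  have hK3 : 3 ≤ Kk H := by
    have : (3 : ℝ) ≤ Kk H := by linarith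
    exact_mod_cast this
  have hKp : (3 : ℝ) ≤ Kk H := by exact_mod_cast hK3
  have hz1 : (zz H : ℝ) ≤ L / (8 * Kk H) := Nat.floor_le (by positivity)
  refine ⟨h0, hK3, hz1, by linarith, h5, hK1, ?_⟩
  have hlL : l ≤ L := (Real.log_le_sub_one_of_pos hL0).trans (by linarith)
  have h7 : 2 + l / 2 + 4 / η ≤ L ^ 2 := by nlinarith
  have h8 : Real.exp (3 * L / 8) ≤ Real.exp (-(L / 2)) * Real.exp L := by
    rw [← Real.exp_add]
    apply Real.exp_le_exp.2
    linarith
  have h9 : Real.exp L = H := Real.exp_log h0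
  calc (2 + l / 2 + 4 / η) * Real.exp (3 * L / 8)
      ≤ L ^ 2 * (Real.exp (-(L / 2)) * Real.exp L) :=
        mul_le_mul h7 h8 (Real.exp_pos _).le (by positivity)
    _ = L ^ 2 * Real.exp (-(L / 2)) * H := by rw [h9]; ring
    _ ≤ 1 / 8 * H := mul_le_mul_of_nonneg_right h2 h0.le
    _ = H / 8 := by ring

end LOWS99

open LOWS99 in
theorem st_LOWS (h1 : ST_WQ) (h2 : Pool.Agent.Helper57.SI.ST_FJ0) (h3 : ST_S2L) : ST_LOWS := by
  rintro η ⟨hη0, hη1⟩
  obtain ⟨c, z₀, hc, hS⟩ := h3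
  obtain ⟨M, hM⟩ : ∃ M : ℕ, 16 / η ≤ Real.log M := by
    obtain ⟨M, hM⟩ := exists_nat_ge (Real.exp (16 / η))
    refine ⟨M, ?_⟩
    rw [Real.le_log_iff_exp_le (lt_of_lt_of_le (Real.exp_pos _) hM)]
    exact hM
  have hM2 : 2 ≤ M := by
    by_contra hcon
    have h7 : M = 0 ∨ M = 1 := by omega
    have h8 : Real.log (M : ℝ) = 0 := by
      rcases h7 with h7 | h7 <;> simp [h7]
    rw [h8] at hM
    have : 0 < 16 / η := by positivity
    linarith
  have hlM : 0 < Real.log M := Real.log_pos (by exact_mod_cast hM2)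
  obtain ⟨H1, hH1⟩ := Pool.Agent.Helper3.SI.zz_large
    (max z₀ (Real.exp (16 * M / η + 4)))
  obtain ⟨H2, hH2⟩ := eventually_atTop.1 (ev η)
  refine ⟨max 3 (max H1 H2), le_max_left _ _, ?_⟩
  intro H hH σ hσ u α
  have hHa : H1 ≤ H := ((le_max_left _ _).trans (le_max_right _ _)).trans hH
  have hHb : H2 ≤ H := ((le_max_right _ _).trans (le_max_right _ _)).trans hH
  obtain ⟨h0, hK3, hzL, hl1, hl8, hlK, hE8⟩ := hH2 H hHb
  obtain ⟨hzN, _⟩ := hH1 H hHa
  have hz0 : z₀ ≤ (zz H : ℝ) := (le_max_left _ _).trans hzN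
  have hzM : Real.exp (16 * M / η + 4) ≤ (zz H : ℝ) := (le_max_right _ _).trans hzN
  set z := zz H with hzdef
  set K := Kk H with hKdef
  set l := Real.log (Real.log H) with hldef
  have hK' : (3 : ℝ) ≤ K := by exact_mod_cast hK3
  have hzpos : (0 : ℝ) < z := lt_of_lt_of_le (Real.exp_pos _) hzM
  have hlogz : 16 * M / η + 4 ≤ Real.log z := by
    rw [Real.le_log_iff_exp_le hzpos]
    exact hzM
  obtain ⟨_, hS2⟩ := hS z hz0 σ hσ
  have hMη : 0 ≤ 16 * (M : ℝ) / η := by positivity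
  have hS2pos : 0 < S2 σ z := by linarith
  have hS1 : S1 σ z ≤ η / 8 * S2 σ z := by
    have h4 := S1_le σ (by linarith [hσ.1]) M z hM2
    have h5 : (M : ℝ) ≤ η / 16 * S2 σ z := by
      have h6 : 16 * (M : ℝ) / η ≤ S2 σ z := by linarith
      rw [div_le_iff₀ hη0] at h6
      linarith
    have h6 : S2 σ z / Real.log M ≤ η / 16 * S2 σ z := by
      rw [div_le_iff₀ hlM]
      have h7 : 16 ≤ η * Real.log M := by
        rw [div_le_iff₀ hη0] at hM
        linarith
      nlinarith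
    linarith
  obtain ⟨g1, g2⟩ := h1 z K α u H (by omega) h0.le
  set E : ℝ := 4 ^ ((K + 1) * z) * (2 * K + 3) ^ z with hEdef
  have hE0 : 0 ≤ E := by rw [hEdef]; positivity
  have hE1 : E ≤ Real.exp (3 * Real.log H / 8) := Pool.Agent.Helper63.SI.E_le hK3 hzL
  have hE2 : (2 + l / 2 + 4 / η) * E ≤ H / 8 := by
    refine (mul_le_mul_of_nonneg_left hE1 ?_).trans hE8
    positivity
  have k0 : H - 2 * E ≤ ∫ t in u..(u + H), ww z K α t := by
    have h4 := (abs_le.1 g1).1
    have h5 : 2 * (4 : ℝ) ^ ((K + 1) * z) * (2 * K + 3) ^ z = 2 * E := by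
      rw [hEdef]; ring
    linarith
  have hB : ∀ q : Pr z, (∫ t in u..(u + H), ww z K α t *
      (1 - Real.cos (t * Real.log ((q : ℕ) : ℝ) + α))) ≤ H / K + 4 * E := by
    intro q
    have h5 : 4 * (4 : ℝ) ^ ((K + 1) * z) * (2 * K + 3) ^ z = 4 * E := by
      rw [hEdef]; ring
    have := g2 q
    linarith
  have hp1 : ∀ p : Pr z, (1 : ℝ) ≤ ((p : ℕ) : ℝ) := by
    intro p
    exact_mod_cast (Nat.prime_of_mem_primesBelow p.2).one_le
  have hc1 : ∀ p : Pr z, 0 ≤ ((p : ℕ) : ℝ) ^ (-σ) := fun p =>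
    Real.rpow_nonneg (by linarith [hp1 p]) _
  have hc2 : ∀ p : Pr z, 0 ≤ Real.log ((p : ℕ) : ℝ) * ((p : ℕ) : ℝ) ^ (-σ) := fun p =>
    mul_nonneg (Real.log_nonneg (hp1 p)) (hc1 p)
  have k1 : (∫ t in u..(u + H), ww z K α t * E1 σ z α t) ≤ S1 σ z * (H / K + 4 * E) := by
    rw [S1_eq]
    exact int_sum z K α u H _ hc1 _ hB
  have k2 : (∫ t in u..(u + H), ww z K α t * E2 σ z α t) ≤ S2 σ z * (H / K + 4 * E) := by
    rw [S2_eq]
    exact int_sum z K α u H _ hc2 _ hB
  have hcE1 : Continuous (fun t => E1 σ z α t) := cont_sum z α _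
  have hcE2 : Continuous (fun t => E2 σ z α t) := cont_sum z α _
  have hcw := Pool.Agent.Helper63.SI.ww_cont z K α
  have i1 : IntervalIntegrable (fun t => ww z K α t) volume u (u + H) :=
    hcw.intervalIntegrable _ _
  have i2 : IntervalIntegrable (fun t => ww z K α t * E1 σ z α t) volume u (u + H) :=
    (hcw.mul hcE1).intervalIntegrable _ _
  have i3 : IntervalIntegrable (fun t => ww z K α t * E2 σ z α t) volume u (u + H) :=
    (hcw.mul hcE2).intervalIntegrable _ _
  set a : ℝ := η * (S2 σ z / l) with ha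
  set b : ℝ := η * S2 σ z with hb
  have hl0 : 0 < l := by linarith
  have ha0 : 0 < a := by rw [ha]; positivity
  have hb0 : 0 < b := by rw [hb]; positivity
  have k4 : (∫ t in u..(u + H), ww z K α t * (1 - E1 σ z α t / a - E2 σ z α t / b)) =
      (∫ t in u..(u + H), ww z K α t) - (1 / a) * (∫ t in u..(u + H), ww z K α t * E1 σ z α t) -
        (1 / b) * ∫ t in u..(u + H), ww z K α t * E2 σ z α t := by
    rw [← intervalIntegral.integral_const_mul, ← intervalIntegral.integral_const_mul,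
      ← intervalIntegral.integral_sub i1 (i2.const_mul _),
      ← intervalIntegral.integral_sub (i1.sub (i2.const_mul _)) (i3.const_mul _)]
    refine intervalIntegral.integral_congr fun t _ => ?_
    ring
  have hD0 : 0 ≤ H / K + 4 * E := by positivity
  have k5 : (1 / a) * (∫ t in u..(u + H), ww z K α t * E1 σ z α t) ≤ l / 8 * (H / K + 4 * E) := by
    have h4 : (∫ t in u..(u + H), ww z K α t * E1 σ z α t) ≤
        η / 8 * S2 σ z * (H / K + 4 * E) :=
      k1.trans (mul_le_mul_of_nonneg_right hS1 hD0)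
    have h5 := mul_le_mul_of_nonneg_left h4 (show 0 ≤ 1 / a by positivity)
    refine h5.trans (le_of_eq ?_)
    rw [ha]
    field_simp
  have k6 : (1 / b) * (∫ t in u..(u + H), ww z K α t * E2 σ z α t) ≤
      1 / η * (H / K + 4 * E) := by
    have h5 := mul_le_mul_of_nonneg_left k2 (show 0 ≤ 1 / b by positivity)
    refine h5.trans (le_of_eq ?_)
    rw [hb]
    field_simp
  have k7 : l / 8 * (H / K) ≤ H / 8 := by
    have : l / 8 * (H / K) = (l / K) * (H / 8) := by ring
    rw [this]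
    have h4 : l / K ≤ 1 := by
      rw [div_le_one (by linarith)]
      exact hlK
    nlinarith
  have k8 : 1 / η * (H / K) ≤ H / 8 := by
    have h4 : 8 / η ≤ K := hl8.trans hlK
    rw [div_le_iff₀ hη0] at h4
    rw [div_mul_div_comm, one_mul, div_le_div_iff₀ (by positivity) (by norm_num)]
    nlinarith
  have k9 : 0 < ∫ t in u..(u + H), ww z K α t * (1 - E1 σ z α t / a - E2 σ z α t / b) := by
    rw [k4]
    have h4 : l / 8 * (H / K + 4 * E) = l / 8 * (H / K) + l / 2 * E := by ring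
    have h5 : 1 / η * (H / K + 4 * E) = 1 / η * (H / K) + 4 / η * E := by ring
    have h6 : (2 + l / 2 + 4 / η) * E = 2 * E + l / 2 * E + 4 / η * E := by ring
    linarith
  by_contra hcon
  push Not at hcon
  have hle : ∀ t ∈ Icc u (u + H), 0 ≤ -(ww z K α t *
      (1 - E1 σ z α t / a - E2 σ z α t / b)) := by
    intro t ht
    have hw : 0 ≤ ww z K α t := Finset.prod_nonneg fun p _ => h2 _ _ (by omega)
    have d1 : 0 ≤ E1 σ z α t := Finset.sum_nonneg fun p _ =>
      mul_nonneg (hc1 p) (by linarith [Real.cos_le_one (t * Real.log ((p : ℕ) : ℝ) + α)])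
    have d2 : 0 ≤ E2 σ z α t := Finset.sum_nonneg fun p _ =>
      mul_nonneg (hc2 p) (by linarith [Real.cos_le_one (t * Real.log ((p : ℕ) : ℝ) + α)])
    have e1 : 0 ≤ E1 σ z α t / a := div_nonneg d1 ha0.le
    have e2 : 0 ≤ E2 σ z α t / b := div_nonneg d2 hb0.le
    have e3 : 1 - E1 σ z α t / a - E2 σ z α t / b ≤ 0 := by
      by_cases hd : E1 σ z α t ≤ a
      · have h5 := hcon t ht hd
        have h4 : 1 ≤ E2 σ z α t / b := by
          rw [le_div_iff₀ hb0]
          linarith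
        linarith
      · have h4 : 1 ≤ E1 σ z α t / a := by
          rw [le_div_iff₀ ha0]
          linarith [not_le.1 hd]
        linarith
    have := mul_nonpos_of_nonneg_of_nonpos hw e3
    linarith
  have h5 := intervalIntegral.integral_nonneg (μ := volume) (by linarith : u ≤ u + H) hle
  rw [intervalIntegral.integral_neg] at h5
  linarith

end Pool.Agent.Helper99.SL
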